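import Pool.Agent.FRE.Stmts

/-!
Row CVR of the squad FRE (MP_1fc801_co): Ruzsa covering.
-/

set_option autoImplicit false

namespace Pool.Agent.FRE.H59

open Pool.Agent.FRE
open scoped Pointwise

/-- the box as a finset -/
noncomputable def bx {D : ℕ} (L : Fin D → ℕ) : Finset (Fin D → ℤ) :=
  Fintype.piFinset fun i => Finset.Icc (-(L i : ℤ)) (L i : ℤ)

theorem mem_bx {D : ℕ} {L : Fin D → ℕ} {x : Fin D → ℤ} : x ∈ bx L ↔ Box L x := by
  simp only [bx, Fintype.mem_piFinset, Finset.mem_Icc, Box, abs_le]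

theorem card_bx {D : ℕ} (L : Fin D → ℕ) : ((bx L).card : ℝ) = ∏ i, (2 * (L i : ℝ) + 1) := by
  have h : (bx L).card = ∏ i, (2 * L i + 1) := by
    unfold bx
    rw [Fintype.card_piFinset]
    refine Finset.prod_congr rfl fun i _ => ?_
    rw [Int.card_Icc]
    omega
  rw [h]
  push_cast
  rfl

/-- an enumeration of a finite set by `Fin M` -/
theorem enum (F : Finset ℂ) (M : ℕ) (h : F.card ≤ M) :
    ∃ f : Fin M → ℂ, ∀ z ∈ F, ∃ k, f k = z := by
  classical
  refine ⟨fun k => if hk : (k : ℕ) < F.card then (F.equivFin.symm ⟨k, hk⟩ : ℂ) else 0, ?_⟩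
  intro z hz
  refine ⟨⟨F.equivFin ⟨z, hz⟩, lt_of_lt_of_le (F.equivFin ⟨z, hz⟩).isLt h⟩, ?_⟩
  simp

theorem cvr (hplu : PluStmt) : CvrStmt := by
  classical
  intro K c D hK hc
  refine ⟨⌊K ^ 5 / c⌋₊ + D, 3 ^ ⌊K ^ 5 / c⌋₊ * 2 ^ D * K ^ 4, by positivity, ?_⟩
  intro A G L hA hAK hG hrep hcard
  set M := ⌊K ^ 5 / c⌋₊ with hM
  obtain ⟨S3, hS3, hS3'⟩ := hplu A K 3 2 hA hAK
  obtain ⟨S2, hS2, hS2'⟩ := hplu A K 2 2 hA hAK
  set Q : Finset ℂ := (bx L).image fun x => ∑ i, x i • G i with hQ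
  have hQc : (Q.card : ℝ) = ∏ i, (2 * (L i : ℝ) + 1) := by
    rw [hQ, Finset.card_image_of_injOn, card_bx]
    intro x hx y hy hxy
    exact hG x y (mem_bx.1 (Finset.mem_coe.1 hx)) (mem_bx.1 (Finset.mem_coe.1 hy)) hxy
  have hQ0 : Q.Nonempty := by
    rw [hQ]
    refine Finset.Nonempty.image ⟨0, mem_bx.2 fun i => ?_⟩ _
    simp
  have hQr : ∀ q ∈ Q, ∃ a ∈ A, ∃ b ∈ A, ∃ c ∈ A, ∃ e ∈ A, q = a + b - c - e := by
    intro q hq
    obtain ⟨x, hx, rfl⟩ := Finset.mem_image.1 hq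
    exact hrep x (mem_bx.1 hx)
  have hQS : Q ⊆ S2 := by
    intro q hq
    obtain ⟨a, ha, b, hb, c, hc, e, he, rfl⟩ := hQr q hq
    have h1 := hS2' ![a, b] ![c, e] (by simp [Fin.forall_fin_two, ha, hb])
      (by simp [Fin.forall_fin_two, hc, he])
    simp only [Fin.sum_univ_two, Matrix.cons_val_zero, Matrix.cons_val_one] at h1
    have h2 : a + b - c - e = a + b - (c + e) := by ring
    rw [h2]
    exact h1
  have hAQ : A + Q ⊆ S3 := by
    intro z hz
    obtain ⟨p, hp, q, hq, rfl⟩ := Finset.mem_add.1 hz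
    obtain ⟨a, ha, b, hb, c, hc, e, he, rfl⟩ := hQr q hq
    have h1 := hS3' ![p, a, b] ![c, e] (by
      intro i
      fin_cases i <;> simp [hp, ha, hb]) (by simp [Fin.forall_fin_two, hc, he])
    simp only [Fin.sum_univ_two, Fin.sum_univ_three, Matrix.cons_val_zero,
      Matrix.cons_val_one, Matrix.cons_val] at h1
    have h2 : p + (a + b - c - e) = p + a + b - (c + e) := by ring
    rw [h2]
    exact h1
  have hA0 : (0 : ℝ) < A.card := by exact_mod_cast hA.card_pos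
  have hcov : ((A + Q).card : ℝ) ≤ K ^ 5 / c * Q.card := by
    have h1 : ((A + Q).card : ℝ) ≤ S3.card := by exact_mod_cast Finset.card_le_card hAQ
    have h2 : (A.card : ℝ) ≤ Q.card / c := by
      rw [le_div_iff₀ hc, hQc]
      linarith
    calc ((A + Q).card : ℝ) ≤ S3.card := h1
      _ ≤ K ^ (3 + 2) * A.card := hS3
      _ ≤ K ^ (3 + 2) * (Q.card / c) := by gcongr
      _ = K ^ 5 / c * Q.card := by ring
  obtain ⟨F, -, hF, hAF⟩ := Finset.ruzsa_covering_add hQ0 hcov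
  have hFM : F.card ≤ M := Nat.le_floor hF
  obtain ⟨f, hf⟩ := enum F M hFM
  refine ⟨Fin.append f G, Fin.append (fun _ => 1) (fun i => 2 * L i), ?_, ?_⟩
  · intro z hz
    obtain ⟨w, hw, u, hu, rfl⟩ := Finset.mem_add.1 (hAF hz)
    obtain ⟨q₁, hq₁, q₂, hq₂, rfl⟩ := Finset.mem_sub.1 hu
    obtain ⟨x, hx, rfl⟩ := Finset.mem_image.1 hq₁
    obtain ⟨y, hy, rfl⟩ := Finset.mem_image.1 hq₂
    obtain ⟨k, rfl⟩ := hf w hw
    have hx' := mem_bx.1 hx
    have hy' := mem_bx.1 hy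
    refine ⟨Fin.append (Pi.single k 1) (fun i => x i - y i), ?_, ?_⟩
    · intro i
      refine Fin.addCases (fun j => ?_) (fun j => ?_) i
      · rw [Fin.append_left, Fin.append_left]
        by_cases hj : j = k
        · subst hj
          simp
        · simp [hj]
      · rw [Fin.append_right, Fin.append_right]
        have h1 := hx' j
        have h2 := hy' j
        have h3 := abs_sub (x j) (y j)
        push_cast
        linarith
    · rw [Fin.sum_univ_add]
      simp only [Fin.append_left, Fin.append_right]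
      have h1 : ∑ j, (Pi.single k (1 : ℤ) : Fin M → ℤ) j • f j = f k := by
        rw [Finset.sum_eq_single k]
        · simp
        · intro j _ hj
          simp [hj]
        · simp
      rw [h1]
      simp only [sub_smul, Finset.sum_sub_distrib]
  · rw [Fin.prod_univ_add]
    simp only [Fin.append_left, Fin.append_right]
    have h1 : ∏ _j : Fin M, (2 * ((1 : ℕ) : ℝ) + 1) = 3 ^ M := by
      rw [Finset.prod_const, Finset.card_univ, Fintype.card_fin]
      norm_num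
    have h2 : ∏ j : Fin D, (2 * ((2 * L j : ℕ) : ℝ) + 1) ≤ 2 ^ D * ∏ j, (2 * (L j : ℝ) + 1) := by
      have h3 : (2 : ℝ) ^ D = ∏ _j : Fin D, (2 : ℝ) := by
        rw [Finset.prod_const, Finset.card_univ, Fintype.card_fin]
      rw [h3, ← Finset.prod_mul_distrib]
      refine Finset.prod_le_prod (fun j _ => by positivity) fun j _ => ?_
      push_cast
      linarith
    have h4 : (Q.card : ℝ) ≤ K ^ 4 * A.card := by
      have h5 : (Q.card : ℝ) ≤ S2.card := by exact_mod_cast Finset.card_le_card hQS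
      exact h5.trans hS2
    rw [h1]
    calc (3 : ℝ) ^ M * ∏ j : Fin D, (2 * ((2 * L j : ℕ) : ℝ) + 1)
        ≤ 3 ^ M * (2 ^ D * ∏ j, (2 * (L j : ℝ) + 1)) := by gcongr
      _ = 3 ^ M * 2 ^ D * Q.card := by rw [hQc]; ring
      _ ≤ 3 ^ M * 2 ^ D * (K ^ 4 * A.card) := by gcongr
      _ = 3 ^ M * 2 ^ D * K ^ 4 * A.card := by ring

end Pool.Agent.FRE.H59

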